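import Pool.Agent.Work.MP_9999b5_ms.Defs

/-! MP_9999b5_ms, block ClaimA: if few `k`-subsets are positive, the set is tame. -/

set_option autoImplicit false

namespace Pool.Agent.Work.MaxSums.helper12ClaimA

open Finset Pool.Agent.Work.MaxSums

theorem holds (h1 : Anti) (h2 : PosProb) : ClaimA := by
  intro ι _ B x k D hk hkm hD hx hsum hfew
  have hBpos : 0 < B.card := by omega
  have hmpos : (0 : ℝ) < B.card := by exact_mod_cast hBpos
  have hk0 : (1 : ℝ) ≤ k := by exact_mod_cast hk
  have hkpos : (0 : ℝ) < k := by linarith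
  have hkm' : (20 : ℝ) * k ≤ B.card := by exact_mod_cast hkm
  have hkB : k ≤ B.card := by omega
  have hfewR : (901 : ℝ) * (pos x B k : ℝ) < (B.card.choose k : ℝ) := by exact_mod_cast hfew
  set m : ℝ := (B.card : ℝ) with hm
  set C : ℝ := (B.card.choose k : ℝ) with hC
  have hCpos : 0 < C := by
    rw [hC]
    exact_mod_cast Nat.choose_pos hkB
  set s : ℝ := ∑ i ∈ B, x i with hs
  -- the mean
  set a : ℝ := s / m with ha
  have ham : a * m = s := by rw [ha]; field_simp
  have ha1 : a ≤ 1 := by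
    rw [ha, div_le_one hmpos, hs, hm]
    calc ∑ i ∈ B, x i ≤ ∑ _i ∈ B, (1 : ℝ) := Finset.sum_le_sum (fun i hi => (hx i hi).2)
      _ = B.card := by simp
  have haD : -D ≤ a := by
    rw [ha, le_div_iff₀ hmpos, hs, hm]
    calc -D * (B.card : ℝ) = ∑ _i ∈ B, -D := by simp; ring
      _ ≤ ∑ i ∈ B, x i := Finset.sum_le_sum (fun i hi => (hx i hi).1)
  set t : ℝ := k / m with ht
  have ht0 : 0 ≤ t := by positivity
  have ht20 : t ≤ 1 / 20 := by
    rw [ht, div_le_iff₀ hmpos]; linarith
  have htm : t * m = k := by rw [ht]; field_simp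
  -- the mean of the `k`-sums
  set μ : ℝ := t * s with hμ
  have hμlow : -t + D / 4 ≤ μ := by
    have h := mul_le_mul_of_nonneg_left hsum ht0
    have e : t * (-1 + m / (4 * k) * D) = -t + D / 4 := by
      rw [ht]; field_simp
    rw [e] at h
    exact h
  set V : ℝ := t * ∑ i ∈ B, (x i - a) ^ 2 with hV
  have hV0 : 0 ≤ V := mul_nonneg ht0 (Finset.sum_nonneg (fun i _ => sq_nonneg _))
  have hVm : V * m = k * ∑ i ∈ B, (x i - a) ^ 2 := by
    rw [hV]
    calc (t * ∑ i ∈ B, (x i - a) ^ 2) * m = (t * m) * ∑ i ∈ B, (x i - a) ^ 2 := by ring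
      _ = _ := by rw [htm]
  have hz0 : ∑ i ∈ B, (x i - a) = 0 := by
    rw [Finset.sum_sub_distrib, Finset.sum_const, nsmul_eq_mul, ← hs, ← hm]
    linarith
  -- `V` is small
  have hVlt : V < 9 * (1 + D) ^ 2 := by
    by_contra hge
    push Not at hge
    have hH : ∀ i ∈ B, |x i - a| ≤ 1 + D := by
      intro i hi
      obtain ⟨h3, h4⟩ := hx i hi
      rw [abs_le]
      constructor <;> linarith
    have h9 : 9 ≤ V := by nlinarith
    have h := h1 ι B k (fun i => x i - a) (1 + D) V t hk hkm hz0 hH hVm hge h9 ht0 ht20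
    have hle : (((B.powersetCard k).filter (fun S => t < ∑ i ∈ S, (x i - a))).card : ℝ)
        ≤ (pos x B k : ℝ) := by
      unfold pos
      have : ((B.powersetCard k).filter (fun S => t < ∑ i ∈ S, (x i - a))).card
          ≤ ((B.powersetCard k).filter (fun S => 0 < ∑ i ∈ S, x i)).card := by
        refine Finset.card_le_card ?_
        intro S hS
        rw [Finset.mem_filter] at hS ⊢
        refine ⟨hS.1, ?_⟩
        have hSk : S.card = k := (Finset.mem_powersetCard.mp hS.1).2
        have h3 := hS.2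
        rw [Finset.sum_sub_distrib, Finset.sum_const, nsmul_eq_mul, hSk] at h3
        have h4 : (k : ℝ) * a = μ := by
          rw [hμ, ← ham, ← htm]; ring
        rw [h4] at h3
        have : 0 ≤ D / 4 := by positivity
        linarith
      exact_mod_cast this
    have h5 : C / 400 ≤ (pos x B k : ℝ) := h.trans hle
    linarith
  -- the second moment method
  have second : ∀ e v : ℝ, 0 < e → 0 ≤ v → e ≤ μ → V ≤ v → v ≤ 900 * e ^ 2 → False := by
    intro e v he hv heμ hVv hve
    have h := h2 ι B k x a 0 e v hBpos hkB he hv (by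
      rw [zero_add]; exact heμ) hVv
    have hle : (((B.powersetCard k).filter (fun S => 0 < 0 + ∑ i ∈ S, x i)).card : ℝ)
        = (pos x B k : ℝ) := by
      unfold pos
      simp only [zero_add]
    rw [hle] at h
    have he2 : 0 < e ^ 2 := by positivity
    have h6 : (1 : ℝ) / 901 ≤ e ^ 2 / (e ^ 2 + v) := by
      rw [div_le_div_iff₀ (by norm_num) (by linarith)]
      linarith
    have h7 := mul_le_mul_of_nonneg_right h6 hCpos.le
    linarith
  have hD1 : D < 1 := by
    by_contra hge
    push Not at hge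
    refine second (D / 5) (9 * (1 + D) ^ 2) (by linarith) (by positivity) ?_ hVlt.le ?_
    · linarith
    · nlinarith
  have hV36 : V ≤ 36 := by nlinarith
  have hμ4 : μ ≤ 1 / 4 := by
    by_contra hge
    push Not at hge
    exact second (1 / 4) 36 (by norm_num) (by norm_num) hge.le hV36 (by norm_num)
  have hks : (k : ℝ) * s = μ * m := by
    rw [hμ, ← htm]; ring
  refine ⟨hD1, ?_, ?_⟩
  · rw [hks]
    have h13 : μ * m ≤ 1 / 4 * m := mul_le_mul_of_nonneg_right hμ4 hmpos.le
    linarith
  · have hsq : ∑ i ∈ B, (x i - a) ^ 2 = ∑ i ∈ B, x i ^ 2 - m * a ^ 2 := by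
      have : ∀ i ∈ B, (x i - a) ^ 2 = x i ^ 2 - 2 * a * x i + a ^ 2 := fun i _ => by ring
      rw [Finset.sum_congr rfl this, Finset.sum_add_distrib, Finset.sum_sub_distrib,
        ← Finset.mul_sum, ← hs, Finset.sum_const, nsmul_eq_mul, ← hm, ← ham]
      ring
    have hka : (k : ℝ) * (m * a ^ 2) ≤ m / 16 := by
      have h8 : (k : ℝ) * a = μ := by rw [hμ, ← ham, ← htm]; ring
      have h9 : μ ^ 2 ≤ 1 / 16 := by
        have : -(1 / 20) ≤ μ := by
          have : 0 ≤ D / 4 := by positivity
          linarith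
        nlinarith
      have h10 : (k : ℝ) * (k * a ^ 2) ≤ k * (1 / 16) := by
        calc (k : ℝ) * (k * a ^ 2) = (k * a) ^ 2 := by ring
          _ = μ ^ 2 := by rw [h8]
          _ ≤ 1 / 16 := h9
          _ ≤ k * (1 / 16) := by linarith
      have h11 := le_of_mul_le_mul_left h10 hkpos
      calc (k : ℝ) * (m * a ^ 2) = m * (k * a ^ 2) := by ring
        _ ≤ m * (1 / 16) := mul_le_mul_of_nonneg_left h11 hmpos.le
        _ = m / 16 := by ring
    have h12 : (k : ℝ) * ∑ i ∈ B, x i ^ 2 = V * m + k * (m * a ^ 2) := by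
      rw [hVm, hsq]; ring
    rw [h12]
    have h13 : V * m ≤ 36 * m := mul_le_mul_of_nonneg_right hV36 hmpos.le
    linarith

end Pool.Agent.Work.MaxSums.helper12ClaimA
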