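import Pool.Agent.Work.MP_9999b5_ms.Defs

/-! MP_9999b5_ms, block Fourth: the fourth moment of a linear statistic. -/

set_option autoImplicit false

namespace Pool.Agent.Work.MaxSums.helper12Fourth

open Finset Pool.Agent.Work.MaxSums

variable {ι : Type} [DecidableEq ι]

/-- the sum over the complement. -/
theorem sum_compl (B S : Finset ι) (hS : S ⊆ B) (z : ι → ℝ) :
    ∑ w ∈ B \ S, z w = ∑ i ∈ B, z i - ∑ i ∈ S, z i := by
  have := Finset.sum_sdiff (f := z) hS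
  linarith

/-- the sum over the exchanged set. -/
theorem sum_exch (S : Finset ι) (s w : ι) (hs : s ∈ S) (hw : w ∉ S) (z : ι → ℝ) :
    ∑ i ∈ insert w (S.erase s), z i = ∑ i ∈ S, z i + (z w - z s) := by
  have hw' : w ∉ S.erase s := fun h => hw (Finset.mem_of_mem_erase h)
  rw [Finset.sum_insert hw', ← Finset.add_sum_erase S z hs]
  ring

theorem holds (_h1 : SumLin) (h2 : SumSq) (h3 : Exchange) : Fourth := by
  intro ι _ B k z H V hk hkm hm hz hH hV
  have hmpos : (0 : ℝ) < B.card := by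
    have : 0 < B.card := by omega
    exact_mod_cast this
  have hm1 : (2 : ℝ) ≤ B.card := by exact_mod_cast hm
  have hk0 : (1 : ℝ) ≤ k := by exact_mod_cast hk
  have hkm' : (2 : ℝ) * k ≤ B.card := by exact_mod_cast hkm
  set m : ℝ := (B.card : ℝ) with hmdef
  set C : ℝ := (B.card.choose k : ℝ) with hC
  have hC0 : 0 ≤ C := by rw [hC]; positivity
  set P : ℝ := ∑ i ∈ B, z i ^ 2 with hP
  have hP0 : 0 ≤ P := Finset.sum_nonneg (fun i _ => sq_nonneg _)
  have hV0 : 0 ≤ V := by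
    by_contra hneg
    push Not at hneg
    have : V * m < 0 := mul_neg_of_neg_of_pos hneg hmpos
    have h' : 0 ≤ (k : ℝ) * P := by positivity
    linarith
  -- first exchange identity
  have hmem : ∀ S ∈ B.powersetCard k, S ⊆ B ∧ S.card = k := fun S hS =>
    Finset.mem_powersetCard.mp hS
  have E1 : ∑ S ∈ B.powersetCard k, ∑ s ∈ S, ∑ w ∈ B \ S,
        (z w - z s) * (∑ i ∈ S, z i) ^ 3
      = ∑ S ∈ B.powersetCard k, ∑ s ∈ S, ∑ w ∈ B \ S,
        (z s - z w) * (∑ i ∈ S, z i + (z w - z s)) ^ 3 := by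
    rw [h3 ι B k (fun S s w => (z w - z s) * (∑ i ∈ S, z i) ^ 3)]
    refine Finset.sum_congr rfl (fun S hS => Finset.sum_congr rfl (fun s hs =>
      Finset.sum_congr rfl (fun w hw => ?_)))
    have hw' : w ∉ S := (Finset.mem_sdiff.mp hw).2
    rw [sum_exch S s w hs hw' z]
  have E2 : ∑ S ∈ B.powersetCard k, ∑ s ∈ S, ∑ w ∈ B \ S,
        (z w - z s) ^ 2 * (∑ i ∈ S, z i) ^ 2
      = ∑ S ∈ B.powersetCard k, ∑ s ∈ S, ∑ w ∈ B \ S,
        (z s - z w) ^ 2 * (∑ i ∈ S, z i + (z w - z s)) ^ 2 := by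
    rw [h3 ι B k (fun S s w => (z w - z s) ^ 2 * (∑ i ∈ S, z i) ^ 2)]
    refine Finset.sum_congr rfl (fun S hS => Finset.sum_congr rfl (fun s hs =>
      Finset.sum_congr rfl (fun w hw => ?_)))
    have hw' : w ∉ S := (Finset.mem_sdiff.mp hw).2
    rw [sum_exch S s w hs hw' z]
  -- the inner sum of `z w - z s`
  have I1 : ∀ S ∈ B.powersetCard k, ∑ s ∈ S, ∑ w ∈ B \ S,
        (z w - z s) * (∑ i ∈ S, z i) ^ 3 = - m * (∑ i ∈ S, z i) ^ 4 := by
    intro S hS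
    obtain ⟨hSB, hSk⟩ := hmem S hS
    have hc : ((B \ S).card : ℝ) = m - k := by
      rw [Finset.card_sdiff_of_subset hSB, Nat.cast_sub (Finset.card_le_card hSB), hSk]
    have hin : ∀ s ∈ S, ∑ w ∈ B \ S, (z w - z s) * (∑ i ∈ S, z i) ^ 3
        = (- ∑ i ∈ S, z i - (m - k) * z s) * (∑ i ∈ S, z i) ^ 3 := by
      intro s _
      rw [← Finset.sum_mul, Finset.sum_sub_distrib, sum_compl B S hSB z, hz, Finset.sum_const,
        nsmul_eq_mul, hc]
      ring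
    rw [Finset.sum_congr rfl hin, ← Finset.sum_mul, Finset.sum_sub_distrib, Finset.sum_const,
      nsmul_eq_mul, hSk, ← Finset.mul_sum]
    ring
  -- the inner sum of squares
  have I2 : ∀ S ∈ B.powersetCard k, ∑ s ∈ S, ∑ w ∈ B \ S,
        (z w - z s) ^ 2 * (∑ i ∈ S, z i) ^ 2
          ≤ 2 * m * (V + ∑ i ∈ S, z i ^ 2) * (∑ i ∈ S, z i) ^ 2 := by
    intro S hS
    obtain ⟨hSB, hSk⟩ := hmem S hS
    have hc : ((B \ S).card : ℝ) = m - k := by
      rw [Finset.card_sdiff_of_subset hSB, Nat.cast_sub (Finset.card_le_card hSB), hSk]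
    have hb : ∑ s ∈ S, ∑ w ∈ B \ S, (z w - z s) ^ 2 * (∑ i ∈ S, z i) ^ 2
        ≤ ∑ s ∈ S, ∑ w ∈ B \ S, (2 * z w ^ 2 + 2 * z s ^ 2) * (∑ i ∈ S, z i) ^ 2 := by
      refine Finset.sum_le_sum (fun s _ => Finset.sum_le_sum (fun w _ => ?_))
      refine mul_le_mul_of_nonneg_right ?_ (sq_nonneg _)
      nlinarith [sq_nonneg (z w + z s)]
    refine hb.trans ?_
    have hin : ∀ s ∈ S, ∑ w ∈ B \ S, (2 * z w ^ 2 + 2 * z s ^ 2) * (∑ i ∈ S, z i) ^ 2
        = (2 * (P - ∑ i ∈ S, z i ^ 2) + (m - k) * (2 * z s ^ 2)) * (∑ i ∈ S, z i) ^ 2 := by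
      intro s _
      rw [← Finset.sum_mul, Finset.sum_add_distrib, ← Finset.mul_sum,
        sum_compl B S hSB (fun i => z i ^ 2), Finset.sum_const, nsmul_eq_mul, hc]
    rw [Finset.sum_congr rfl hin, ← Finset.sum_mul, Finset.sum_add_distrib, Finset.sum_const,
      nsmul_eq_mul, hSk, ← Finset.mul_sum, ← Finset.mul_sum]
    refine mul_le_mul_of_nonneg_right ?_ (sq_nonneg _)
    have hQ0 : 0 ≤ ∑ i ∈ S, z i ^ 2 := Finset.sum_nonneg (fun i _ => sq_nonneg _)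
    have hkQ : 0 ≤ (k : ℝ) * ∑ i ∈ S, z i ^ 2 := by positivity
    nlinarith
  -- the moments
  have M2 : ∑ S ∈ B.powersetCard k, (∑ i ∈ S, z i) ^ 2 ≤ C * V := by
    have h := h2 ι B k z
    rw [hz] at h
    have h' : m * (m - 1) * ∑ S ∈ B.powersetCard k, (∑ i ∈ S, z i) ^ 2
        = C * ((m - k) * (V * m)) := by
      rw [hV]
      linear_combination h
    have hle : m * (m - 1) * ∑ S ∈ B.powersetCard k, (∑ i ∈ S, z i) ^ 2
        ≤ m * (m - 1) * (C * V) := by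
      rw [h']
      have : (m - k) * (C * V * m) ≤ (m - 1) * (C * V * m) :=
        mul_le_mul_of_nonneg_right (by linarith) (by positivity)
      linarith
    exact le_of_mul_le_mul_left hle (by nlinarith)
  have M4 : ∑ S ∈ B.powersetCard k, (∑ i ∈ S, z i ^ 2) ^ 2 ≤ C * (V ^ 2 + H ^ 2 * V) := by
    have h := h2 ι B k (fun i => z i ^ 2)
    have hq : ∑ i ∈ B, (z i ^ 2) ^ 2 ≤ H ^ 2 * P := by
      rw [hP, Finset.mul_sum]
      refine Finset.sum_le_sum (fun i hi => ?_)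
      have h1 : z i ^ 2 ≤ H ^ 2 := by
        rw [← sq_abs (z i)]
        exact pow_le_pow_left₀ (abs_nonneg _) (hH i hi) 2
      calc (z i ^ 2) ^ 2 = z i ^ 2 * z i ^ 2 := by ring
        _ ≤ H ^ 2 * z i ^ 2 := mul_le_mul_of_nonneg_right h1 (sq_nonneg _)
    have hle : m * (m - 1) * ∑ S ∈ B.powersetCard k, (∑ i ∈ S, z i ^ 2) ^ 2
        ≤ m * (m - 1) * (C * (V ^ 2 + H ^ 2 * V)) := by
      rw [h]
      have ha : (k : ℝ) * (m - k) * ∑ i ∈ B, (z i ^ 2) ^ 2 ≤ m * (m - 1) * (H ^ 2 * V) := by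
        calc (k : ℝ) * (m - k) * ∑ i ∈ B, (z i ^ 2) ^ 2
            ≤ (k : ℝ) * (m - k) * (H ^ 2 * P) :=
              mul_le_mul_of_nonneg_left hq (mul_nonneg (by linarith) (by linarith))
          _ = (m - k) * (H ^ 2 * (k * P)) := by ring
          _ = (m - k) * (H ^ 2 * (V * m)) := by rw [hV]
          _ ≤ (m - 1) * (H ^ 2 * (V * m)) :=
              mul_le_mul_of_nonneg_right (by linarith) (by positivity)
          _ = m * (m - 1) * (H ^ 2 * V) := by ring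
      have hb : (k : ℝ) * (k - 1) * P ^ 2 ≤ m * (m - 1) * V ^ 2 := by
        have h1 : (k : ℝ) * ((k : ℝ) * (k - 1) * P ^ 2) ≤ k * (m * (m - 1) * V ^ 2) := by
          calc (k : ℝ) * ((k : ℝ) * (k - 1) * P ^ 2) = (k - 1) * (k * P) ^ 2 := by ring
            _ = (k - 1) * (V * m) ^ 2 := by rw [hV]
            _ = ((k - 1) * m) * (V ^ 2 * m) := by ring
            _ ≤ (k * (m - 1)) * (V ^ 2 * m) :=
                mul_le_mul_of_nonneg_right (by nlinarith) (by positivity)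
            _ = k * (m * (m - 1) * V ^ 2) := by ring
        exact le_of_mul_le_mul_left h1 (by linarith)
      have : C * ((k : ℝ) * (m - k) * ∑ i ∈ B, (z i ^ 2) ^ 2 + (k : ℝ) * (k - 1) * P ^ 2)
          ≤ C * (m * (m - 1) * (H ^ 2 * V) + m * (m - 1) * V ^ 2) :=
        mul_le_mul_of_nonneg_left (by linarith) hC0
      calc C * ((k : ℝ) * (m - k) * ∑ i ∈ B, (z i ^ 2) ^ 2
            + (k : ℝ) * (k - 1) * (∑ i ∈ B, z i ^ 2) ^ 2)
          ≤ C * (m * (m - 1) * (H ^ 2 * V) + m * (m - 1) * V ^ 2) := this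
        _ = _ := by ring
    exact le_of_mul_le_mul_left hle (by nlinarith)
  -- the main inequality
  set T4 : ℝ := ∑ S ∈ B.powersetCard k, (∑ i ∈ S, z i) ^ 4 with hT4
  set X : ℝ := ∑ S ∈ B.powersetCard k, ∑ s ∈ S, ∑ w ∈ B \ S,
        (z w - z s) * (∑ i ∈ S, z i) ^ 3 with hX
  set Y : ℝ := ∑ S ∈ B.powersetCard k, ∑ s ∈ S, ∑ w ∈ B \ S,
        (z w - z s) ^ 2 * (∑ i ∈ S, z i) ^ 2 with hY
  have hX1 : X = - m * T4 := by
    rw [hX, Finset.sum_congr rfl I1, ← Finset.mul_sum]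
  have hmain : -2 * X ≤ 3 * Y := by
    have e1 : -2 * X = ∑ S ∈ B.powersetCard k, ∑ s ∈ S, ∑ w ∈ B \ S,
        (-((z w - z s) * (∑ i ∈ S, z i) ^ 3)
          - (z s - z w) * (∑ i ∈ S, z i + (z w - z s)) ^ 3) := by
      simp only [Finset.sum_sub_distrib, Finset.sum_neg_distrib]
      rw [← E1]
      ring
    have e2 : 2 * Y = ∑ S ∈ B.powersetCard k, ∑ s ∈ S, ∑ w ∈ B \ S,
        ((z w - z s) ^ 2 * (∑ i ∈ S, z i) ^ 2
          + (z s - z w) ^ 2 * (∑ i ∈ S, z i + (z w - z s)) ^ 2) := by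
      simp only [Finset.sum_add_distrib]
      rw [← E2]
      ring
    have e3 : -2 * X ≤ 3 / 2 * (2 * Y) := by
      rw [e1, e2, Finset.mul_sum]
      refine Finset.sum_le_sum (fun S _ => ?_)
      rw [Finset.mul_sum]
      refine Finset.sum_le_sum (fun s _ => ?_)
      rw [Finset.mul_sum]
      refine Finset.sum_le_sum (fun w _ => ?_)
      have key : ∀ Z a b : ℝ, -((a - b) * Z ^ 3) - (b - a) * (Z + (a - b)) ^ 3
          ≤ 3 / 2 * ((a - b) ^ 2 * Z ^ 2 + (b - a) ^ 2 * (Z + (a - b)) ^ 2) := by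
        intro Z a b
        have : 0 ≤ (a - b) ^ 2 * (a - b) ^ 2 := by positivity
        nlinarith [this]
      exact key _ _ _
    linarith
  have hYle : Y ≤ ∑ S ∈ B.powersetCard k,
      2 * m * (V + ∑ i ∈ S, z i ^ 2) * (∑ i ∈ S, z i) ^ 2 := Finset.sum_le_sum I2
  have hsplit : ∑ S ∈ B.powersetCard k,
      2 * m * (V + ∑ i ∈ S, z i ^ 2) * (∑ i ∈ S, z i) ^ 2
      ≤ 2 * m * (V * (C * V) + (T4 / 6 + 3 / 2 * (C * (V ^ 2 + H ^ 2 * V)))) := by
    have h1 : ∀ S ∈ B.powersetCard k,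
        2 * m * (V + ∑ i ∈ S, z i ^ 2) * (∑ i ∈ S, z i) ^ 2
        ≤ 2 * m * (V * (∑ i ∈ S, z i) ^ 2 + ((∑ i ∈ S, z i) ^ 4 / 6
            + 3 / 2 * (∑ i ∈ S, z i ^ 2) ^ 2)) := by
      intro S _
      have key : ∀ Q Z : ℝ, Q * Z ^ 2 ≤ Z ^ 4 / 6 + 3 / 2 * Q ^ 2 := by
        intro Q Z
        nlinarith [sq_nonneg (Z ^ 2 - 3 * Q)]
      rw [mul_assoc]
      refine mul_le_mul_of_nonneg_left ?_ (by linarith)
      have := key (∑ i ∈ S, z i ^ 2) (∑ i ∈ S, z i)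
      linarith
    refine (Finset.sum_le_sum h1).trans ?_
    rw [← Finset.mul_sum, Finset.sum_add_distrib, Finset.sum_add_distrib, ← Finset.mul_sum,
      ← Finset.sum_div, ← Finset.mul_sum]
    refine mul_le_mul_of_nonneg_left ?_ (by linarith)
    have h3 := mul_le_mul_of_nonneg_left M2 hV0
    linarith
  have hfin : m * T4 ≤ m * (3 * (V * (C * V) + (T4 / 6
      + 3 / 2 * (C * (V ^ 2 + H ^ 2 * V))))) := by
    have e : -2 * X = 2 * (m * T4) := by rw [hX1]; ring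
    have h5 : 2 * (m * T4) ≤ 3 * (2 * m * (V * (C * V) + (T4 / 6
      + 3 / 2 * (C * (V ^ 2 + H ^ 2 * V))))) := by linarith
    linarith
  have hT := le_of_mul_le_mul_left hfin hmpos
  nlinarith [hT]

end Pool.Agent.Work.MaxSums.helper12Fourth
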